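import Pool.Agent.Y181.NC.Asm

/-!
# MP_3cda5a_co: for all `k ≥ 3` and `d ≥ 2k` a simplicial `d`-polytope with `d + 3` vertices and
`g_k = 1` without an admissible cell complex

The definitions (`Cplx`, `IsBall`, `InS`, `gNum`, `Admissible`, `IsPolytopeBoundary`, ...) are those of
the starting file `MP_3cda5a_co.NoCellComplex`, which treats `k = 3`, `d = 6`.
-/

set_option autoImplicit false

open Finset
open Pool.Agent.Results.MP_3cda5a_co.NoCellComplex

namespace Pool.Agent.Results.MP_3cda5a_co.AllDimensions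

/-- For all `k ≥ 3` and all `d ≥ 2 k` there is a simplicial `d`-polytope with `d + 3` vertices whose
boundary complex `Δ` has `g_k(Δ) = 1` and has no admissible cell complex, not even if the condition
`g_k(Σ) = 1` is dropped (`Weak`). -/
theorem result : ∀ k d : ℕ, 3 ≤ k → 2 * k ≤ d → ∃ (p : ℕ → Fin d → ℝ) (Δ : Cplx),
    IsPolytopeBoundary d p Δ ∧ (verts Δ.faces).card = d + 3 ∧ gNum d Δ.faces k = 1 ∧
    (¬ ∃ K D S : Cplx, Admissible k d Δ K D S) ∧
    ¬ ∃ K D S : Cplx, Pool.Agent.Y181.NC.Weak k d Δ K D S := by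
  intro k d hk hd
  obtain ⟨h1, h2⟩ := Pool.Agent.Y181.NC.t_POL Pool.Agent.Y181.NC.t_EXP k d hk hd
  have h3 : (verts (Pool.Agent.Y181.NC.ex k d).faces).card = d + 3 := by
    have h : verts (Pool.Agent.Y181.NC.ex k d).faces = range (d + 3) := h1
    rw [h, Finset.card_range]
  exact ⟨Pool.Agent.Y181.NC.pt k d, Pool.Agent.Y181.NC.ex k d, h2, h3,
    Pool.Agent.Y181.NC.t_G k d hk hd, Pool.Agent.Y181.NC.t_NO k d hk hd,
    Pool.Agent.Y181.NC.t_NOW k d hk hd⟩

end Pool.Agent.Results.MP_3cda5a_co.AllDimensions
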